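import Pool.Agent.Helper43.Gm.Goals2
import Pool.Agent.Helper18.Tw.Pen

/-!
Packet I of the campaign Gm (MP_d3128a_ag): assembly of the window theorem.
-/

set_option autoImplicit false

open Module

noncomputable section

namespace Pool.Agent.Helper43.Gm.PkI

open Helper18.Shgh Helper18.Cusp Helper18.Slab Helper18.Tw Helper18.Flag
open Helper18.Nod (GoodZ NS NB np NB_eq)

theorem ch2 (M : ℕ) : 2 * (M + 1).choose 2 = M * M + M := by
  have h : (M + 1).choose 2 = M * (M + 1) / 2 := by
    rw [Nat.choose_two_right, Nat.add_sub_cancel, mul_comm]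
  have h2 : 2 ∣ M * (M + 1) := (Nat.even_mul_succ_self M).two_dvd
  rw [h, Nat.mul_div_cancel' h2]
  ring

theorem fin_win (h0 : GoalH0) {D D' : Finset (ℕ × ℕ)} (hsub : D' ⊆ D)
    (hcard : D.card ≤ D'.card + 1) {s : ℕ} {m : ℕ → ℕ} (hm : Antitone m)
    (hs : ∀ i, s ≤ i → m i = 0) (h9 : 2 ≤ m 9) {a b : ℕ} (ha : a ≤ 14) (hb : b ≤ 18)
    (hT : Takes D' (m 9) (a * m 9 ^ 2) (b * m 9 ^ 2)) {χ : ℤ}
    (hχ : χ = (D.card : ℤ) - ((∑ k ∈ Finset.Ico 9 s, (m k + 1).choose 2 : ℕ) : ℤ))
    (hwin : 19 * (m 9 : ℤ) ^ 2 ≤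
        ((Finset.univ.filter (fun i : Fin s => m (i : ℕ) = 1)).card : ℤ) + χ ∨
      15 * (m 9 : ℤ) ^ 2 ≤ - χ) : GoodFor D m (Finset.Ico 9 s) := by
  apply h0 D D' hsub hcard s m hm hs h9 _ _ hT
  have h9' : (2 : ℤ) ≤ m 9 := by exact_mod_cast h9
  have hsq : (4 : ℤ) ≤ (m 9 : ℤ) ^ 2 := by nlinarith
  have hch : (2 : ℤ) * ((m 9 + 1).choose 2 : ℕ) = (m 9 : ℤ) * m 9 + m 9 := by
    exact_mod_cast ch2 (m 9)
  have ha' : (a : ℤ) ≤ 14 := by exact_mod_cast ha
  have hb' : (b : ℤ) ≤ 18 := by exact_mod_cast hb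
  rcases hwin with h | h
  · left
    rw [hχ] at h
    push_cast at h ⊢
    nlinarith
  · right
    rw [hχ] at h
    push_cast at h hch ⊢
    nlinarith

theorem goalI (h0 : GoalH0) (h1 : GoalH1) (h2 : GoalH2) (h3 : GoalH3) (h4 : GoalH4)
    (hRS : GoalRS) : GoalI := by
  intro s m d hm hs hd hwin
  rcases Nat.lt_or_ge (∑ i ∈ Finset.range 9, m i) (3 * d) with hlt | hge
  · obtain ⟨hsum, hR⟩ := red_tr hm hd (j := 9) (by norm_num) le_rfl hlt
    rcases Nat.lt_or_ge (m 9) 2 with h9 | h9
    · exact cubic_finish s m d 9 hm hs le_rfl hR (goodFor_simple hm hs (by omega) _)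
    · have hR0 : Red d m := ⟨fun i j hij _ => hm hij, hd, hlt⟩
      obtain ⟨κ, hκ⟩ : ∃ κ, 3 * d - ∑ i ∈ Finset.range 9, m i = κ := ⟨_, rfl⟩
      have hκpos : 0 < κ := by omega
      rcases Nat.lt_or_ge κ (m 9) with hκM | hκM
      · -- a curve of a pencil
        obtain ⟨k, hk1, hk2⟩ : ∃ k, m 9 ≤ k * κ ∧ k * κ < 2 * m 9 := by
          refine ⟨m 9 / κ + 1, ?_, ?_⟩
          · have := Nat.lt_div_mul_add (a := m 9) hκpos
            rw [add_mul, one_mul]
            exact this.le
          · have := Nat.div_mul_le_self (m 9) κ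
            rw [add_mul, one_mul]
            omega
        have hk : 2 ≤ k := by
          by_contra hcon
          have : k * κ ≤ 1 * κ := Nat.mul_le_mul_right _ (by omega)
          omega
        obtain ⟨z, F, hPD, -⟩ := Pool.Agent.Helper43.Nod.hex k (by omega)
        have hP := hPD.pencil hk
        apply slab_finish hm hs (by omega) hP hR0
        have hgt := rk_hgt hP hk hR0
        rw [show kap d m = κ from hκ] at hgt
        exact fin_win h0 (Finset.Subset.refl _) (Nat.le_succ _) hm hs h9 (by norm_num)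
          (by norm_num) (h2 _ _ _ (m 9) _ hgt (mem_DR' hP (by omega) hR0) (by omega) hk1 hk2.le)
          (chi_DR hs (by omega) hP hR0) hwin
      · -- the cubic
        apply cubic_finish s m d 9 hm hs le_rfl hR
        have e8 : tr m 9 8 = m 8 := tr_lt (by norm_num)
        have e0 : tr m 9 0 = m 0 := tr_lt (by norm_num)
        have hkap : kap d (tr m 9) = κ := by rw [kap, hsum]; exact hκ
        have hgt := fr_hgt hR
        have h89 : m 9 ≤ m 8 := hm (by norm_num)
        rw [hkap, e8] at hgt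
        have fin : ∀ a b : ℕ, a ≤ 14 → b ≤ 18 →
            Takes (DSr d (tr m 9)) (m 9) (a * m 9 ^ 2) (b * m 9 ^ 2) →
            GoodFor (DS d (tr m 9) (d + 1)) m (Finset.Ico 9 s) := fun a b ha hb hT =>
          fin_win h0 (Finset.filter_subset _ _) card_DSr hm hs h9 ha hb hT (chi_DS hs hR) hwin
        rcases Nat.lt_or_ge (2 * m 9) κ with hκ2 | hκ2
        · rcases Nat.lt_or_ge (4 * m 9 + 1) (m 8) with hw | hw
          · exact fin 10 18 (by norm_num) (by norm_num)
              (h1 _ _ _ (m 9) _ hgt mem_DSr h9 (by omega) (by omega))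
          · by_cases hd4 : d ≤ m 0 + 4 * m 9 + 1 ∨ d ≤ 6 * m 9 + 2
            · refine fin 5 3 (by norm_num) (by norm_num)
                (h4 _ _ _ (m 9) _ hgt mem_DSr (by omega) h89 (by omega) ?_)
              rw [fr]
              split_ifs with hn
              · rfl
              · rcases hd4 with hd4 | hd4
                · apply (hRS d (tr m 9) hR).2
                  rw [e0]
                  omega
                · apply rr_zero
                  omega
            · push Not at hd4
              obtain ⟨hd5, hd6⟩ := hd4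
              refine fin 14 18 (by norm_num) (by norm_num)
                (h3 _ _ _ (m 9) _ hgt mem_DSr h9 h89 hw (by omega) ?_)
              rcases Nat.lt_or_ge (2 * m 9) (m 8) with hw2 | hw2
              · rw [hgt.wall _ hw2]
                omega
              · have h5 := (hRS d (tr m 9) hR).1 (2 * m 9) (by rw [e0]; omega) (by omega)
                  (by rw [e8]; exact hw2)
                rw [hkap, e8] at h5
                rw [fr, if_neg (by omega)]
                exact h5
        · exact fin 7 5 (by norm_num) (by norm_num)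
            (h2 _ _ _ (m 9) _ hgt mem_DSr (by omega) hκM hκ2)
  · obtain ⟨z, F, -, hU⟩ := Pool.Agent.Helper43.Nod.hex (m 8 + 1) (by omega)
    exact main_zero hm hs hd (Nat.lt_succ_self _) hU hge

end Pool.Agent.Helper43.Gm.PkI
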